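import Pool.Agent.GL.KG.Lf
import Pool.Agent.GG.Kod

/-!
# GL KG Dns: identities between polynomials in logarithmic tangent vectors extend across the boundary

At `x₀` let `x₀ a ≠ 0`, `I = {i ∈ B | x₀ i = 0}`, `f : LFrm P a (k + 1) I` with `f.g (w₀) ≠ 0`.  Let `Ê c i`, `ĝ` be the homogenisations (`hmz a D`, one degree `D` for
all); on the cone `Ê c (x) = x a ^ D E c (wa a x) ∈ conTan P x` if `x a ≠ 0` (`tan_conTan`).  `q = ∏ i ∈ B \ I, x i`.  The polynomial vectors `Ξ c`:
`Ξ (ι i₀)`: `ĝ q` at `i₀`, `0` at the other `i ∈ I`, `x i₀ Ê i (q / x i)` at `i ∈ B \ I`, `x i₀ Ê i q` at `i ∉ B`; `Ξ c`, `c ∉ range ι`: `0` at `i ∈ I`, `Ê i (q / x i)` at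
`i ∈ B \ I`, `Ê i q` at `i ∉ B`.  Then `act B x (Ξ c (x)) = q x i₀ Ê` or `q Ê` on the cone (by `Frm.dual`), in `conTan P x`.  Every `ξ ∈ LT P B x₀` is a combination of the
`Ξ c (x₀)` and `eul B x₀` (`Frm.span`, the `I`-components of `act B x₀ ξ` are `0`).  For constant coefficients `F (x, ∑ η Ξ (x) + β eul (x))` is a polynomial in
`x`, and it vanishes on `Off P B` where `x a ≠ 0`; times `x a ∏ i ∈ B, x i` it vanishes on the cone, so it is in `P` (`X i ∉ P` for `i ∈ B`, `i = a`).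
-/

set_option autoImplicit false

open MvPolynomial
open Pool.Agent.H17LG.Variety (FunField)
open Pool.Agent.H62.FC (Homog)
open Pool.Agent.H13.SM (conTan cone)
open Pool.Agent.H68.KR (hmz hmz_isHomogeneous)
open Pool.Agent.GG.Kd

noncomputable section

namespace Pool.Agent.GL

variable {N : ℕ} {P : Ideal (MvPolynomial (Fin (N + 1)) ℂ)} [P.IsPrime] {k : ℕ}

/-- tangent vectors of the chart are tangent vectors of the cone (from the proof of `finrank_tan`) -/
theorem tan_conTan (hP : Homog P) (hz : ∃ z : Fin (k + 1) → FunField P, IsTranscendenceBasis ℂ z) {a : Fin (N + 1)} {x : Fin (N + 1) → ℂ}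
    (hx : x ∈ cone P) (ha : x a ≠ 0) {ζ : Fin (N + 1) → ℂ} (h : ζ ∈ tan (ya P a) (wa a x)) : ζ ∈ conTan P x := by
  have haP : X a ∉ P := fun h => ha (by have := hx.2 _ h; rwa [eval_X] at this)
  have hw := isPt_wa hz hx ha
  have hmem : x a • ζ ∈ conTan P x := by
    intro Q hQ
    have hpt : IsPtB (ya P a) (dp (wa a x) ζ) := isPtB_dp.2 ⟨hw, h⟩
    have h1 : ∀ d, dpl x (x a • ζ) (homogeneousComponent d Q) = 0 := by
      intro d
      have h2 := hpt _ (aeval_ya_mem hP hz haP (hP Q hQ d))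
      have h3 := aeval_scale (homogeneousComponent_isHomogeneous d Q) (TrivSqZeroExt.inl (x a) : DualNumber ℂ) (dp (wa a x) ζ)
      rw [h2, mul_zero] at h3
      have e : (fun i => (TrivSqZeroExt.inl (x a) : DualNumber ℂ) * dp (wa a x) ζ i) = dp x (x a • ζ) := by
        funext i
        ext
        · simp [dp, wa]
          field_simp
        · simp [dp, TrivSqZeroExt.snd_mul]
      rw [e] at h3
      rw [← snd_aeval_dp, h3]
      rfl
    have h2 : dpl x (x a • ζ) Q = 0 := by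
      have h3 : dpl x (x a • ζ) (∑ d ∈ Finset.range (Q.totalDegree + 1), homogeneousComponent d Q) =
          ∑ d ∈ Finset.range (Q.totalDegree + 1), dpl x (x a • ζ) (homogeneousComponent d Q) := by
        induction Finset.range (Q.totalDegree + 1) using Finset.induction_on with
        | empty =>
          rw [Finset.sum_empty, Finset.sum_empty]
          unfold dpl
          simp
        | insert c s hc ih => rw [Finset.sum_insert hc, Finset.sum_insert hc, dpl_add, ih]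
      rw [MvPolynomial.sum_homogeneousComponent] at h3
      rw [h3]
      exact Finset.sum_eq_zero fun d _ => h1 d
    rw [← h2]
    unfold dpl
    exact Finset.sum_congr rfl fun j _ => mul_comm _ _
  have h1 := Submodule.smul_mem (conTan P x) (x a)⁻¹ hmem
  rwa [smul_smul, inv_mul_cancel₀ ha, one_smul] at h1

theorem act_add (B : Finset (Fin (N + 1))) (x ξ η : Fin (N + 1) → ℂ) : act B x (ξ + η) = act B x ξ + act B x η := by
  funext i
  simp only [act, Pi.add_apply]
  split_ifs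
  · ring
  · rfl

theorem act_smul (B : Finset (Fin (N + 1))) (x ξ : Fin (N + 1) → ℂ) (c : ℂ) : act B x (c • ξ) = c • act B x ξ := by
  funext i
  simp only [act, Pi.smul_apply, smul_eq_mul]
  split_ifs
  · ring
  · rfl

theorem act_eul (B : Finset (Fin (N + 1))) (x : Fin (N + 1) → ℂ) : act B x (eul B x) = x := by
  funext i
  simp only [act, eul]
  split_ifs
  · rw [mul_one]
  · rfl

theorem act_sum {ι : Type} (s : Finset ι) (B : Finset (Fin (N + 1))) (x : Fin (N + 1) → ℂ) (η : ι → ℂ) (ξ : ι → Fin (N + 1) → ℂ) :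
    act B x (∑ c ∈ s, η c • ξ c) = ∑ c ∈ s, η c • act B x (ξ c) := by
  classical
  induction s using Finset.induction_on with
  | empty =>
    rw [Finset.sum_empty, Finset.sum_empty]
    funext i
    simp [act]
  | insert c s hc ih => rw [Finset.sum_insert hc, Finset.sum_insert hc, act_add, act_smul, ih]

/-- homogenisation of degree `D` -/
theorem eval_hmzD {a : Fin (N + 1)} {G : MvPolynomial (Fin (N + 1)) ℂ} {D : ℕ} (hD : G.totalDegree ≤ D) {x : Fin (N + 1) → ℂ} (ha : x a ≠ 0) :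
    eval x (hmz a D G) = x a ^ D * eval (wa a x) G := by
  have h1 := aeval_hmz hD (y := x) (l := a) (mul_inv_cancel₀ ha)
  rw [MvPolynomial.aeval_eq_eval, MvPolynomial.aeval_eq_eval] at h1
  have e : (fun i => (x a)⁻¹ * x i) = wa a x := by
    funext i
    rw [wa, div_eq_inv_mul]
  rw [e] at h1
  exact h1

/-- polynomials which vanish off the boundary are in the ideal -/
theorem mem_of_off {B : Finset (Fin (N + 1))} (hB : ∀ i ∈ B, X i ∉ P) {a : Fin (N + 1)} (ha : X a ∉ P) {G : MvPolynomial (Fin (N + 1)) ℂ}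
    (h : ∀ x ∈ Off P B, x a ≠ 0 → eval x G = 0) : G ∈ P := by
  classical
  have h1 : X a * ((∏ i ∈ B, X i) * G) ∈ P.radical := by
    rw [← MvPolynomial.vanishingIdeal_zeroLocus_eq_radical (K := ℂ) P, MvPolynomial.mem_vanishingIdeal_iff]
    intro x hx
    rw [MvPolynomial.aeval_eq_eval, map_mul, map_mul, map_prod, eval_X]
    by_cases hxa : x a = 0
    · rw [hxa, zero_mul]
    by_cases hxB : ∀ i ∈ B, x i ≠ 0
    · have hxc : x ∈ cone P := ⟨fun h0 => hxa (by rw [h0]; rfl), fun Q hQ => by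
        have h2 := hx Q hQ
        rwa [MvPolynomial.aeval_eq_eval] at h2⟩
      rw [h x ⟨hxc, hxB⟩ hxa, mul_zero, mul_zero]
    · push Not at hxB
      obtain ⟨i, hi, hi0⟩ := hxB
      rw [Finset.prod_eq_zero hi (by rw [eval_X, hi0]), zero_mul, mul_zero]
  rw [Ideal.IsPrime.radical inferInstance] at h1
  have h2 := (Ideal.IsPrime.mem_or_mem ‹P.IsPrime› h1).resolve_left ha
  refine (Ideal.IsPrime.mem_or_mem ‹P.IsPrime› h2).resolve_left fun h3 => ?_
  obtain ⟨i, hi, h4⟩ := (Ideal.IsPrime.prod_mem_iff (p := P)).1 h3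
  exact hB i hi h4

/-- polynomial logarithmic vector fields which span the logarithmic tangent spaces -/
theorem LFrm.exists_fields (hP : Homog P) (hz : ∃ z : Fin (k + 1) → FunField P, IsTranscendenceBasis ℂ z) {B I : Finset (Fin (N + 1))} (hI : I ⊆ B)
    {a : Fin (N + 1)} (f : LFrm P a (k + 1) I) : ∃ Ξ : Fin (k + 1) → Fin (N + 1) → MvPolynomial (Fin (N + 1)) ℂ,
      (∀ x ∈ cone P, x a ≠ 0 → ∀ c, act B x (fun i => eval x (Ξ c i)) ∈ conTan P x) ∧
      ∀ x ∈ cone P, x a ≠ 0 → Module.finrank ℂ (conTan P x) ≤ k + 2 → (∀ i ∈ I, x i = 0) → (∀ i ∈ B, i ∉ I → x i ≠ 0) → eval (wa a x) f.g ≠ 0 →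
        ∀ ξ, act B x ξ ∈ conTan P x → act B x ξ a = 0 → ∃ η : Fin (k + 1) → ℂ, ∀ i, ξ i = ∑ c, η c * eval x (Ξ c i) := by
  classical
  -- one degree for the homogenisations
  obtain ⟨D, hDE, hDg⟩ : ∃ D, (∀ c i, (f.E c i).totalDegree ≤ D) ∧ f.g.totalDegree ≤ D := by
    refine ⟨(∑ c, ∑ i, (f.E c i).totalDegree) + f.g.totalDegree, fun c i => ?_, Nat.le_add_left _ _⟩
    refine le_trans ?_ (Nat.le_add_right _ _)
    refine le_trans (Finset.single_le_sum (f := fun i => (f.E c i).totalDegree) (fun _ _ => Nat.zero_le _) (Finset.mem_univ i)) ?_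
    exact Finset.single_le_sum (f := fun c => ∑ i, (f.E c i).totalDegree) (fun _ _ => Nat.zero_le _) (Finset.mem_univ c)
  obtain ⟨Eh, hEh⟩ : ∃ Eh : Fin (k + 1) → Fin (N + 1) → MvPolynomial (Fin (N + 1)) ℂ, ∀ c i, Eh c i = hmz a D (f.E c i) := ⟨_, fun _ _ => rfl⟩
  obtain ⟨gh, hgh⟩ : ∃ gh, gh = hmz a D f.g := ⟨_, rfl⟩
  obtain ⟨Q, hQ⟩ : ∃ Q : MvPolynomial (Fin (N + 1)) ℂ, Q = ∏ i ∈ B \ I, X i := ⟨_, rfl⟩
  obtain ⟨q, hq⟩ : ∃ q : Fin (N + 1) → MvPolynomial (Fin (N + 1)) ℂ, ∀ i, q i = ∏ j ∈ (B \ I).erase i, X j := ⟨_, fun _ => rfl⟩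
  obtain ⟨mc, hmc⟩ : ∃ mc : Fin (k + 1) → MvPolynomial (Fin (N + 1)) ℂ, (∀ i : {i // i ∈ I}, mc (f.ι i) = X (i : Fin (N + 1))) ∧
      ∀ c, (∀ i, f.ι i ≠ c) → mc c = 1 := by
    refine ⟨fun c => if h : ∃ i, f.ι i = c then X ((h.choose : {i // i ∈ I}) : Fin (N + 1)) else 1, fun i => ?_, fun c hc => ?_⟩
    · have h : ∃ j, f.ι j = f.ι i := ⟨i, rfl⟩
      have h1 : h.choose = i := f.inj h.choose_spec
      show (if h : ∃ j, f.ι j = f.ι i then X ((h.choose : {i // i ∈ I}) : Fin (N + 1)) else 1) = _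
      rw [dif_pos h, h1]
    · show (if h : ∃ i, f.ι i = c then X ((h.choose : {i // i ∈ I}) : Fin (N + 1)) else 1) = _
      rw [dif_neg]
      rintro ⟨i, hi⟩
      exact hc i hi
  obtain ⟨Ξ, hΞI, hΞB, hΞ⟩ : ∃ Ξ : Fin (k + 1) → Fin (N + 1) → MvPolynomial (Fin (N + 1)) ℂ,
      (∀ c (i : {i // i ∈ I}), Ξ c i = if f.ι i = c then gh * Q else 0) ∧ (∀ c i, i ∈ B → i ∉ I → Ξ c i = mc c * Eh c i * q i) ∧
        ∀ c i, i ∉ B → Ξ c i = mc c * Eh c i * Q := by
    refine ⟨fun c i => if h : i ∈ I then (if f.ι ⟨i, h⟩ = c then gh * Q else 0) else if i ∈ B then mc c * Eh c i * q i else mc c * Eh c i * Q,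
      fun c i => ?_, fun c i h1 h2 => ?_, fun c i h1 => ?_⟩
    · show (if h : (i : Fin (N + 1)) ∈ I then (if f.ι ⟨i, h⟩ = c then gh * Q else 0) else _) = _
      rw [dif_pos i.2]
    · show (if h : i ∈ I then (if f.ι ⟨i, h⟩ = c then gh * Q else 0) else _) = _
      rw [dif_neg h2, if_pos h1]
    · show (if h : i ∈ I then (if f.ι ⟨i, h⟩ = c then gh * Q else 0) else _) = _
      rw [dif_neg fun h => h1 (hI h), if_neg h1]
  have hEw : ∀ {x : Fin (N + 1) → ℂ}, x a ≠ 0 → ∀ c i, eval x (Eh c i) = x a ^ D * eval (wa a x) (f.E c i) := fun ha c i => by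
    rw [hEh, eval_hmzD (hDE c i) ha]
  have hgw : ∀ {x : Fin (N + 1) → ℂ}, x a ≠ 0 → eval x gh = x a ^ D * eval (wa a x) f.g := fun ha => by
    rw [hgh, eval_hmzD hDg ha]
  have hqQ : ∀ (x : Fin (N + 1) → ℂ) i, i ∈ B → i ∉ I → x i * eval x (q i) = eval x Q := by
    intro x i h1 h2
    rw [hq, hQ, ← Finset.mul_prod_erase (B \ I) _ (Finset.mem_sdiff.2 ⟨h1, h2⟩), map_mul, eval_X]
  refine ⟨Ξ, ?_, ?_⟩
  · intro x hx ha c
    have hw := isPt_wa hz hx ha
    have h1 : act B x (fun i => eval x (Ξ c i)) = (eval x (mc c) * eval x Q * x a ^ D) • fun i => eval (wa a x) (f.E c i) := by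
      funext i
      rw [Pi.smul_apply, smul_eq_mul, act]
      by_cases hiI : i ∈ I
      · have h2 := f.frm.dual (wa a x) hw c (f.ι ⟨i, hiI⟩)
        rw [f.hu ⟨i, hiI⟩, Finset.sum_eq_single i (fun j _ hj => by rw [Pi.single_eq_of_ne hj, zero_mul]) (fun h => absurd (Finset.mem_univ _) h),
          Pi.single_eq_same, one_mul] at h2
        rw [if_pos (hI hiI), hΞI c ⟨i, hiI⟩, h2]
        by_cases hc : f.ι ⟨i, hiI⟩ = c
        · rw [if_pos hc, if_pos hc, map_mul, hgw ha, ← hc, hmc.1 ⟨i, hiI⟩, eval_X]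
          ring
        · rw [if_neg hc, if_neg hc, map_zero, mul_zero, mul_zero]
      · by_cases hiB : i ∈ B
        · rw [if_pos hiB, hΞB c i hiB hiI, map_mul, map_mul, hEw ha, ← hqQ x i hiB hiI]
          ring
        · rw [if_neg hiB, hΞ c i hiB, map_mul, map_mul, hEw ha]
          ring
    rw [h1]
    exact Submodule.smul_mem _ _ (tan_conTan hP hz hx ha (f.frm.mem _ hw c))
  · intro x hx ha hsm hxI hxB hg ξ hξ hξa
    have hw := isPt_wa hz hx ha
    obtain ⟨v, hv⟩ : ∃ v, v = act B x ξ := ⟨_, rfl⟩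
    rw [← hv] at hξ hξa
    have hvI : ∀ i ∈ I, v i = 0 := by
      intro i hi
      rw [hv, act, if_pos (hI hi), hxI i hi, zero_mul]
    have hva : va a x v = fun i => v i * (x a)⁻¹ := by
      funext i
      rw [va, hξa]
      field_simp
      ring
    have hspan : ∀ i, eval (wa a x) f.g * v i = ∑ c, (∑ j, f.u c j * v j) * eval (wa a x) (f.E c i) := by
      intro i
      have h1 := f.frm.span hw (finrank_tan hP hz hx ha hsm) hg (va_mem hz hx ha hξ) i
      rw [hva] at h1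
      have h2 : (∑ c, (∑ j, f.u c j * (v j * (x a)⁻¹)) * eval (wa a x) (f.E c i)) =
          (∑ c, (∑ j, f.u c j * v j) * eval (wa a x) (f.E c i)) * (x a)⁻¹ := by
        rw [Finset.sum_mul]
        refine Finset.sum_congr rfl fun c _ => ?_
        rw [Finset.sum_mul, Finset.sum_mul, Finset.sum_mul]
        exact Finset.sum_congr rfl fun j _ => by ring
      rw [h2, ← mul_assoc] at h1
      exact mul_right_cancel₀ (inv_ne_zero ha) h1
    have huI : ∀ i : {i // i ∈ I}, ∑ j, f.u (f.ι i) j * v j = 0 := by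
      intro i
      rw [f.hu i]
      refine Finset.sum_eq_zero fun j _ => ?_
      by_cases hj : j = i
      · rw [hj, hvI _ i.2, mul_zero]
      · rw [Pi.single_eq_of_ne hj, zero_mul]
    have hQ0 : eval x Q ≠ 0 := by
      rw [hQ, map_prod, Finset.prod_ne_zero_iff]
      intro i hi
      rw [eval_X]
      exact hxB i (Finset.mem_sdiff.1 hi).1 (Finset.mem_sdiff.1 hi).2
    have hD0 : x a ^ D ≠ 0 := pow_ne_zero _ ha
    obtain ⟨η, hη1, hη2⟩ : ∃ η : Fin (k + 1) → ℂ, (∀ i : {i // i ∈ I}, η (f.ι i) = ξ i / (eval x gh * eval x Q)) ∧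
        ∀ c, (∀ i, f.ι i ≠ c) → η c = (∑ j, f.u c j * v j) / (eval (wa a x) f.g * x a ^ D * eval x Q) := by
      refine ⟨fun c => if h : ∃ i, f.ι i = c then ξ (h.choose : {i // i ∈ I}) / (eval x gh * eval x Q) else
        (∑ j, f.u c j * v j) / (eval (wa a x) f.g * x a ^ D * eval x Q), fun i => ?_, fun c hc => ?_⟩
      · have h : ∃ j, f.ι j = f.ι i := ⟨i, rfl⟩
        have h1 : h.choose = i := f.inj h.choose_spec
        show (if h : ∃ j, f.ι j = f.ι i then ξ (h.choose : {i // i ∈ I}) / (eval x gh * eval x Q) else _) = _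
        rw [dif_pos h, h1]
      · show (if h : ∃ i, f.ι i = c then ξ (h.choose : {i // i ∈ I}) / (eval x gh * eval x Q) else _) = _
        rw [dif_neg]
        rintro ⟨i, hi⟩
        exact hc i hi
    -- the terms of the sum off `I`
    have hterm : ∀ c i, η c * (eval x (mc c) * eval x (Eh c i)) =
        ((∑ j, f.u c j * v j) * eval (wa a x) (f.E c i)) * (eval (wa a x) f.g * eval x Q)⁻¹ := by
      intro c i
      by_cases hc : ∃ j, f.ι j = c
      · obtain ⟨j, rfl⟩ := hc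
        rw [hmc.1 j, eval_X, hxI _ j.2, huI j]
        ring
      · push Not at hc
        rw [hmc.2 c hc, hη2 c hc, hEw ha, map_one]
        field_simp
    refine ⟨η, fun i => ?_⟩
    by_cases hiI : i ∈ I
    · have h1 : ∀ c, η c * eval x (Ξ c i) = if f.ι ⟨i, hiI⟩ = c then η c * (eval x gh * eval x Q) else 0 := by
        intro c
        rw [hΞI c ⟨i, hiI⟩]
        split_ifs
        · rw [map_mul]
        · rw [map_zero, mul_zero]
      rw [Finset.sum_congr rfl fun c _ => h1 c, Finset.sum_ite_eq, if_pos (Finset.mem_univ _), hη1 ⟨i, hiI⟩]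
      have h2 : eval x gh ≠ 0 := by
        rw [hgw ha]
        exact mul_ne_zero hD0 hg
      exact (div_mul_cancel₀ _ (mul_ne_zero h2 hQ0)).symm
    · by_cases hiB : i ∈ B
      · have h1 : ∀ c, η c * eval x (Ξ c i) =
            ((∑ j, f.u c j * v j) * eval (wa a x) (f.E c i)) * ((eval (wa a x) f.g * eval x Q)⁻¹ * eval x (q i)) := by
          intro c
          rw [hΞB c i hiB hiI, map_mul, map_mul, ← mul_assoc, hterm]
          ring
        have h2 : v i = x i * ξ i := by rw [hv, act, if_pos hiB]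
        have h3 := hxB i hiB hiI
        rw [Finset.sum_congr rfl fun c _ => h1 c, ← Finset.sum_mul, ← hspan i, h2, ← hqQ x i hiB hiI]
        have h4 : eval x (q i) ≠ 0 := fun h => hQ0 (by rw [← hqQ x i hiB hiI, h, mul_zero])
        field_simp
      · have h1 : ∀ c, η c * eval x (Ξ c i) =
            ((∑ j, f.u c j * v j) * eval (wa a x) (f.E c i)) * ((eval (wa a x) f.g * eval x Q)⁻¹ * eval x Q) := by
          intro c
          rw [hΞ c i hiB, map_mul, map_mul, ← mul_assoc, hterm]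
          ring
        have h2 : v i = ξ i := by rw [hv, act, if_neg hiB]
        rw [Finset.sum_congr rfl fun c _ => h1 c, ← Finset.sum_mul, ← hspan i, h2]
        field_simp

/-- **Density.** -/
theorem dens (hP : Homog P) (hz : ∃ z : Fin (k + 1) → FunField P, IsTranscendenceBasis ℂ z) {B : Finset (Fin (N + 1))} (hB : ∀ i ∈ B, X i ∉ P)
    {m : ℕ} (F : MvPolynomial (XV N m) ℂ) (hF : ∀ x ∈ Off P B, ∀ ξ : Fin m → Fin (N + 1) → ℂ, LT P B x ξ → eval (xv x ξ) F = 0)
    {x : Fin (N + 1) → ℂ} (hx : x ∈ cone P) (hsm : Module.finrank ℂ (conTan P x) ≤ k + 2) (hsnc : Snc P B x) {ξ : Fin m → Fin (N + 1) → ℂ}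
    (hξ : LT P B x ξ) : eval (xv x ξ) F = 0 := by
  classical
  obtain ⟨a, ha⟩ : ∃ a, x a ≠ 0 := by
    by_contra h
    push Not at h
    exact hx.1 (funext h)
  have haP : X a ∉ P := fun h => ha (by have := hx.2 _ h; rwa [eval_X] at this)
  obtain ⟨f, hg⟩ := exists_LFrm hP hz hx hsm hsnc ha
  obtain ⟨Ξ, hΞ1, hΞ2⟩ := f.exists_fields hP hz (Finset.filter_subset _ B)
  -- the coefficients
  have hco : ∀ l, ∃ (η : Fin (k + 1) → ℂ) (β : ℂ), ∀ i, ξ l i = (∑ c, η c * eval x (Ξ c i)) + β * eul B x i := by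
    intro l
    have h1 := hξ l
    obtain ⟨β, hβ⟩ : ∃ β, β = act B x (ξ l) a / x a := ⟨_, rfl⟩
    have h2 : act B x (ξ l + (-β) • eul B x) = act B x (ξ l) + (-β) • x := by rw [act_add, act_smul, act_eul]
    obtain ⟨η, hη⟩ := hΞ2 x hx ha hsm (fun i hi => (Finset.mem_filter.1 hi).2) (fun i h3 h4 h5 => h4 (Finset.mem_filter.2 ⟨h3, h5⟩)) hg
      (ξ l + (-β) • eul B x) (by
        rw [h2]
        exact add_mem h1 (Submodule.smul_mem _ _ (euler_mem hP hx))) (by
        rw [h2, Pi.add_apply, Pi.smul_apply, smul_eq_mul, hβ]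
        field_simp
        ring)
    refine ⟨η, β, fun i => ?_⟩
    rw [← hη i, Pi.add_apply, Pi.smul_apply, smul_eq_mul]
    ring
  choose η β hηβ using hco
  -- the polynomial
  obtain ⟨G, hG⟩ : ∃ G : MvPolynomial (Fin (N + 1)) ℂ, ∀ x' : Fin (N + 1) → ℂ,
      eval x' G = eval (xv x' fun l i => (∑ c, η l c * eval x' (Ξ c i)) + β l * eul B x' i) F := by
    refine ⟨aeval (Sum.elim (fun i => X i) fun p : Fin m × Fin (N + 1) => (∑ c, C (η p.1 c) * Ξ c p.2) + C (β p.1) * (if p.2 ∈ B then 1 else X p.2)) F,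
      fun x' => ?_⟩
    rw [← MvPolynomial.aeval_eq_eval, ← AlgHom.comp_apply, MvPolynomial.comp_aeval, MvPolynomial.aeval_eq_eval]
    congr 2
    funext p
    rcases p with i | ⟨l, i⟩
    · simp
    · show (aeval x') ((∑ c, C (η l c) * Ξ c i) + C (β l) * (if i ∈ B then 1 else X i)) = (∑ c, η l c * eval x' (Ξ c i)) + β l * eul B x' i
      rw [MvPolynomial.aeval_eq_eval, map_add, map_sum, map_mul, eval_C, eul]
      congr 1
      · exact Finset.sum_congr rfl fun c _ => by rw [map_mul, eval_C]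
      · split_ifs
        · rw [map_one]
        · rw [eval_X]
  have hGP : G ∈ P := by
    refine mem_of_off hB haP fun x' hx' hxa' => ?_
    rw [hG]
    refine hF x' hx' _ fun l => ?_
    have h1 : (fun i => (∑ c, η l c * eval x' (Ξ c i)) + β l * eul B x' i) = (∑ c, η l c • fun i => eval x' (Ξ c i)) + β l • eul B x' := by
      funext i
      rw [Pi.add_apply, Finset.sum_apply, Pi.smul_apply, smul_eq_mul]
      rfl
    rw [h1, act_add, act_sum, act_smul, act_eul]
    exact add_mem (Submodule.sum_mem _ fun c _ => Submodule.smul_mem _ _ (hΞ1 x' hx'.1 hxa' c)) (Submodule.smul_mem _ _ (euler_mem hP hx'.1))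
  have h2 := hx.2 G hGP
  rw [hG] at h2
  have h3 : ξ = fun l i => (∑ c, η l c * eval x (Ξ c i)) + β l * eul B x i := by
    funext l i
    exact hηβ l i
  rw [h3]
  exact h2

end Pool.Agent.GL
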