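import Pool.Agent.GL.KG.Det
import Pool.Agent.GL.KO

/-!
# GL KG Pol: near every point of the cone the section is a quotient of polynomials in the point and the logarithmic tangent vectors

`x₀ a ≠ 0`; `exists_dat` (as in `Plc.regular`) for the chart at `x₀`, `PlcL.exists_rep`, `exists_LFrm` at `x₀` with `I = {i ∈ B | x₀ i = 0}`, `LFrm.exists_det`, `PlcL.val_rep`.  At a point `x` off `D` with `x a ≠ 0`, `J (w) ≠ 0`, `f.g (w) ≠ 0`, `w = wa a x`:
`x a J^e (∏_{i ∈ B} w i)^M p.val = A (w) det (τ)^M` and `x a ^ e' f.g (w)^(k+1) det (τ) = (∏_{i ∈ I} x i) T (x, ξ)`, so `(∏_{i ∈ I} x i)^M` cancels.  `g` = the product of all the denominators, homogenised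
(`hmz`, `eval_hmz'` as in `Plc.exists_poly`), times `X a`, `∏ i ∈ B \ I, X i`; if `g (x) = 0` both sides are `0` (multiply both sides by `g` once more).
-/

set_option autoImplicit false

open MvPolynomial
open Pool.Agent.H17LG.Variety (FunField ratio PoleAtMost IsLogGeneralType)
open Pool.Agent.H23.Fano (Form PrimeDivisorOver)
open Pool.Agent.H62.FC (Homog)
open Pool.Agent.H13.SM (conTan cone)
open Pool.Agent.GG.Kd
open Pool.Agent.H68.KR (hmz hmz_isHomogeneous)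

noncomputable section

namespace Pool.Agent.GL

variable {N : ℕ} {P : Ideal (MvPolynomial (Fin (N + 1)) ℂ)} [P.IsPrime] {B : Finset (Fin (N + 1))} {k M : ℕ}

open Classical in
theorem PlcL.exists_poly (p : PlcL P B (k + 1) M) (hP : Homog P) (hz : ∃ z : Fin (k + 1) → FunField P, IsTranscendenceBasis ℂ z) (hs : SncX P B (k + 1))
    {x₀ : Fin (N + 1) → ℂ} (hx₀ : x₀ ∈ cone P) :
    ∃ (g : MvPolynomial (Fin (N + 1)) ℂ) (A : MvPolynomial (XV N (k + 1)) ℂ), eval x₀ g ≠ 0 ∧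
      ∀ x ∈ Off P B, ∀ ξ : Fin (k + 1) → Fin (N + 1) → ℂ, LT P B x ξ → eval x g * p.val x (fun l => act B x (ξ l)) = eval (xv x ξ) A := by
  obtain ⟨a, ha⟩ : ∃ a, x₀ a ≠ 0 := by
    by_contra h
    push Not at h
    exact hx₀.1 (funext h)
  have haP : X a ∉ P := fun h => ha (by have := hx₀.2 _ h; rwa [eval_X] at this)
  have hsm := hs.smooth x₀ hx₀
  obtain ⟨d, hJ⟩ := exists_dat (ya P a) hz (adjoin_ya hz haP) (finrank_tan hP hz hx₀ ha hsm)
  obtain ⟨W, A₀, hW, hA⟩ := p.exists_rep hz haP d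
  obtain ⟨e, he⟩ : ∃ e, e = 2 * (k + 1) * M + 1 := ⟨_, rfl⟩
  rw [← he] at hA
  have hex := exists_LFrm hP hz hx₀ hsm (hs.snc x₀ hx₀) ha
  obtain ⟨I, hI⟩ : ∃ I, I = B.filter fun i => x₀ i = 0 := ⟨_, rfl⟩
  rw [← hI] at hex
  have hIB : I ⊆ B := hI ▸ Finset.filter_subset _ _
  obtain ⟨f, hf⟩ := hex
  obtain ⟨T, e₁, hT⟩ := f.exists_det hz hIB hP d
  set J' := hmz a d.J.totalDegree d.J with hJ'
  set A' := hmz a A₀.totalDegree A₀ with hA'
  set g' := hmz a f.g.totalDegree f.g with hg'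
  refine ⟨(X a * J' * g') * (X a ^ (1 + A₀.totalDegree) * J' ^ e * (∏ i ∈ B \ I, X i) ^ M * (X a ^ e₁ * g' ^ (k + 1)) ^ M),
    rename Sum.inl (X a * J' * g') * (rename Sum.inl A' *
      rename Sum.inl (X a) ^ (d.J.totalDegree * e + f.g.totalDegree * (k + 1) * M + B.card * M) * T ^ M), ?_, ?_⟩
  · have h1 : eval x₀ J' ≠ 0 := by
      rw [hJ', eval_hmz' _ ha]
      exact mul_ne_zero (pow_ne_zero _ ha) hJ
    have h2 : eval x₀ g' ≠ 0 := by
      rw [hg', eval_hmz' _ ha]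
      exact mul_ne_zero (pow_ne_zero _ ha) hf
    have h3 : eval x₀ (∏ i ∈ B \ I, X i : MvPolynomial (Fin (N + 1)) ℂ) ≠ 0 := by
      rw [map_prod]
      refine Finset.prod_ne_zero_iff.2 fun i hi => ?_
      rw [eval_X]
      intro h
      rw [Finset.mem_sdiff] at hi
      exact hi.2 (hI ▸ Finset.mem_filter.2 ⟨hi.1, h⟩)
    simp only [map_mul, map_pow, eval_X]
    exact mul_ne_zero (mul_ne_zero (mul_ne_zero ha h1) h2) (mul_ne_zero (mul_ne_zero (mul_ne_zero (pow_ne_zero _ ha) (pow_ne_zero _ h1)) (pow_ne_zero _ h3))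
      (pow_ne_zero _ (mul_ne_zero (pow_ne_zero _ ha) (pow_ne_zero _ h2))))
  · intro x hxO ξ hξ
    have hx : x ∈ cone P := hxO.1
    have hren : ∀ G : MvPolynomial (Fin (N + 1)) ℂ, eval (xv x ξ) (rename Sum.inl G) = eval x G := by
      intro G
      rw [eval_rename]
      rfl
    simp only [map_mul, map_pow, hren, eval_X, map_prod]
    by_cases hxa : x a = 0
    · rw [hxa]
      ring
    by_cases hJx : eval x J' = 0
    · rw [hJx]
      ring
    by_cases hgx : eval x g' = 0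
    · rw [hgx]
      ring
    have hJw : eval (wa a x) d.J ≠ 0 := by
      intro h
      rw [hJ', eval_hmz' _ hxa, h, mul_zero] at hJx
      exact hJx rfl
    have hgw : eval (wa a x) f.g ≠ 0 := by
      intro h
      rw [hg', eval_hmz' _ hxa, h, mul_zero] at hgx
      exact hgx rfl
    have hv := p.val_rep hz d hW hA hx hxO.2 hxa hJw hξ
    have hdet := hT x hx hxa (hs.smooth x hx) hgw ξ hξ
    have hBp : ∏ i ∈ B, wa a x i = (∏ i ∈ B \ I, x i) * (∏ i ∈ I, x i) * (x a ^ B.card)⁻¹ := by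
      rw [Finset.prod_sdiff hIB]
      simp only [wa]
      rw [Finset.prod_div_distrib, Finset.prod_const, div_eq_mul_inv]
    have hIne : ∏ i ∈ I, x i ≠ 0 := Finset.prod_ne_zero_iff.2 fun i hi => hxO.2 i (hIB hi)
    have hBne : ∏ i ∈ B \ I, x i ≠ 0 := Finset.prod_ne_zero_iff.2 fun i hi => hxO.2 i (Finset.mem_sdiff.1 hi).1
    rw [hv, hJ', hA', hg', eval_hmz' _ hxa, eval_hmz' _ hxa, eval_hmz' _ hxa, hBp]
    generalize (Matrix.of fun l j => d.tau (va a x (act B x (ξ l))) j).det = D at hdet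
    generalize eval (xv x ξ) T = Tv at hdet
    generalize eval (wa a x) d.J = Jw at hJw
    generalize eval (wa a x) f.g = gw at hgw hdet
    generalize eval (wa a x) A₀ = Aw
    generalize ∏ i ∈ I, x i = PI at hIne hdet
    generalize ∏ i ∈ B \ I, x i = PB at hBne
    generalize x a = y at hxa hdet
    generalize d.J.totalDegree = dJ
    generalize f.g.totalDegree = dg
    generalize A₀.totalDegree = dA
    generalize B.card = cB
    have key : (y ^ e₁) ^ M * (gw ^ (k + 1)) ^ M * D ^ M = PI ^ M * Tv ^ M := by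
      rw [← mul_pow, ← mul_pow, ← mul_pow, ← hdet]
      ring
    have h3 : y * y⁻¹ = 1 := mul_inv_cancel₀ hxa
    have h4 : Jw ^ e * (Jw ^ e)⁻¹ = 1 := mul_inv_cancel₀ (pow_ne_zero _ hJw)
    have h5 : PB ^ M * (PB ^ M)⁻¹ = 1 := mul_inv_cancel₀ (pow_ne_zero _ hBne)
    have h6 : PI ^ M * (PI ^ M)⁻¹ = 1 := mul_inv_cancel₀ (pow_ne_zero _ hIne)
    have h7 : (Jw ^ e * (PB * PI * (y ^ cB)⁻¹) ^ M)⁻¹ = (Jw ^ e)⁻¹ * (PB ^ M)⁻¹ * (PI ^ M)⁻¹ * y ^ (cB * M) := by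
      rw [mul_inv, mul_pow, mul_pow, mul_inv, mul_inv, inv_pow, inv_inv, ← pow_mul]
      ring
    rw [h7]
    calc y * (y ^ dJ * Jw) * (y ^ dg * gw) * (y ^ (1 + dA) * (y ^ dJ * Jw) ^ e * PB ^ M * (y ^ e₁ * (y ^ dg * gw) ^ (k + 1)) ^ M) *
          (y⁻¹ * (Aw * ((Jw ^ e)⁻¹ * (PB ^ M)⁻¹ * (PI ^ M)⁻¹ * y ^ (cB * M)) * D ^ M))
        = y * (y ^ dJ * Jw) * (y ^ dg * gw) * (y * y⁻¹) * (Jw ^ e * (Jw ^ e)⁻¹) * (PB ^ M * (PB ^ M)⁻¹) * (PI ^ M)⁻¹ *
          ((y ^ e₁) ^ M * (gw ^ (k + 1)) ^ M * D ^ M) * (y ^ dA * Aw * y ^ (dJ * e + dg * (k + 1) * M + cB * M)) := by ring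
      _ = y * (y ^ dJ * Jw) * (y ^ dg * gw) * (PI ^ M * (PI ^ M)⁻¹) * Tv ^ M * (y ^ dA * Aw * y ^ (dJ * e + dg * (k + 1) * M + cB * M)) := by
        rw [key, h3, h4, h5]
        ring
      _ = _ := by
        rw [h6]
        ring

end Pool.Agent.GL
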