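import Pool.Agent.GG.Kd.Pol
import Pool.Agent.GL.Defs

/-!
# GL KG Defs: the geometry of the logarithmic tangent bundle at a point of the boundary

`Snc P B x`: the differentials of the coordinates `x i`, `i ∈ B`, which vanish at `x`, are independent on the tangent space of the cone.
`Frm y u g E`: polynomial vector fields `E c` on the affine variety with the generic point `y`, with `u c' (E c) = g` for `c' = c` and `0` otherwise (`u c` linear
forms).  `LFrm P a n I`: such fields in the chart `x_a = 1`, where the coordinates `i ∈ I` are among the forms `u`.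
`LT P B x ξ`: `ξ` are logarithmic coordinates of a tangent vector.  `Off P B`: the points of the cone off the boundary.
-/

set_option autoImplicit false

open MvPolynomial
open Pool.Agent.H17LG.Variety (FunField)
open Pool.Agent.H13.SM (conTan cone)
open Pool.Agent.GG.Kd (IsPt tan ya wa va)

noncomputable section

namespace Pool.Agent.GL

/-- polynomial vector fields dual to the linear forms `u c`, up to the factor `g` -/
structure Frm {K : Type} [Field K] [Algebra ℂ K] {r n : ℕ} (y : Fin r → K) (u : Fin n → Fin r → ℂ) (g : MvPolynomial (Fin r) ℂ)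
    (E : Fin n → Fin r → MvPolynomial (Fin r) ℂ) : Prop where
  mem : ∀ w, IsPt y w → ∀ c, (fun i => eval w (E c i)) ∈ tan y w
  dual : ∀ w, IsPt y w → ∀ c c', ∑ i, u c' i * eval w (E c i) = if c' = c then eval w g else 0

variable {N : ℕ}

/-- the differentials of the coordinates of `B` which vanish at `x` are independent -/
def Snc (P : Ideal (MvPolynomial (Fin (N + 1)) ℂ)) (B : Finset (Fin (N + 1))) (x : Fin (N + 1) → ℂ) : Prop :=
  ∀ c : Fin (N + 1) → ℂ, (∀ i, c i ≠ 0 → i ∈ B ∧ x i = 0) → (∀ v ∈ conTan P x, ∑ i, c i * v i = 0) → c = 0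

/-- the points of the cone off the boundary -/
def Off (P : Ideal (MvPolynomial (Fin (N + 1)) ℂ)) (B : Finset (Fin (N + 1))) : Set (Fin (N + 1) → ℂ) := {x | x ∈ cone P ∧ ∀ i ∈ B, x i ≠ 0}

/-- tuples of logarithmic tangent vectors -/
def LT (P : Ideal (MvPolynomial (Fin (N + 1)) ℂ)) (B : Finset (Fin (N + 1))) (x : Fin (N + 1) → ℂ) {m : ℕ} (ξ : Fin m → Fin (N + 1) → ℂ) : Prop :=
  ∀ l, act B x (ξ l) ∈ conTan P x

/-- polynomial vector fields in the chart `x_a = 1`, dual to linear forms which contain the coordinates `i ∈ I` -/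
structure LFrm (P : Ideal (MvPolynomial (Fin (N + 1)) ℂ)) [P.IsPrime] (a : Fin (N + 1)) (n : ℕ) (I : Finset (Fin (N + 1))) where
  /-- the linear forms -/
  u : Fin n → Fin (N + 1) → ℂ
  /-- the index of the coordinate `i` -/
  ι : {i // i ∈ I} → Fin n
  inj : Function.Injective ι
  hu : ∀ i : {i // i ∈ I}, u (ι i) = Pi.single (i : Fin (N + 1)) 1
  /-- the factor -/
  g : MvPolynomial (Fin (N + 1)) ℂ
  /-- the fields -/
  E : Fin n → Fin (N + 1) → MvPolynomial (Fin (N + 1)) ℂ
  frm : Frm (ya P a) u g E

end Pool.Agent.GL
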