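import Pool.Agent.GL.KG.Lf

/-!
# GL KG Det: the determinant of the differentials `dt_j` on logarithmic vectors is divisible by the equation of the boundary

`v^l = va a x (act B x (ξ l)) ∈ tan`, `g v^l = ∑_c u_c (v^l) E_c` (`Frm.span`), so `g^n det (τ_j (v^l)) = det (u_c (v^l)) det (τ_j (E_c))`; the row `c = ι i`
of the first matrix is `v^l i = x i (x a ξ^l i - (act B x (ξ l)) a) / x a ^ 2`.
-/

set_option autoImplicit false

open MvPolynomial
open Pool.Agent.H17LG.Variety (FunField)
open Pool.Agent.H62.FC (Homog)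
open Pool.Agent.H13.SM (conTan cone)
open Pool.Agent.GG.Kd (IsPt tan ya wa va Dat XV xv)

noncomputable section

namespace Pool.Agent.GL

variable {N : ℕ} {P : Ideal (MvPolynomial (Fin (N + 1)) ℂ)} [P.IsPrime] {k : ℕ}

section

variable {m : ℕ} (B : Finset (Fin (N + 1)))

/-- the coordinates of `act B x (ξ l)` as polynomials -/
private def actP (l : Fin m) (j : Fin (N + 1)) : MvPolynomial (XV N m) ℂ :=
  if j ∈ B then X (Sum.inl j) * X (Sum.inr (l, j)) else X (Sum.inr (l, j))

private theorem eval_actP (x : Fin (N + 1) → ℂ) (ξ : Fin m → Fin (N + 1) → ℂ) (l : Fin m) (j : Fin (N + 1)) :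
    eval (xv x ξ) (actP B l j) = act B x (ξ l) j := by
  unfold actP act
  split_ifs
  · rw [map_mul, eval_X, eval_X]
    rfl
  · rw [eval_X]
    rfl

end

open Classical in
/-- the coordinate with the index `c`, or `1` -/
private def dg {a : Fin (N + 1)} {n : ℕ} {I : Finset (Fin (N + 1))} (f : LFrm P a n I) (x : Fin (N + 1) → ℂ) (c : Fin n) : ℂ :=
  if h : ∃ i, f.ι i = c then x (h.choose : Fin (N + 1)) else 1

private theorem prod_dg {a : Fin (N + 1)} {n : ℕ} {I : Finset (Fin (N + 1))} (f : LFrm P a n I) (x : Fin (N + 1) → ℂ) :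
    ∏ c, dg f x c = ∏ i ∈ I, x i := by
  rw [← Finset.prod_coe_sort I x]
  symm
  refine Fintype.prod_of_injective f.ι f.inj _ _ (fun c hc => ?_) fun i => ?_
  · have hc' : ¬ ∃ i, f.ι i = c := fun ⟨i, hi⟩ => hc ⟨i, hi⟩
    rw [dg, dif_neg hc']
  · have h : ∃ j, f.ι j = f.ι i := ⟨i, rfl⟩
    have h1 : h.choose = i := f.inj h.choose_spec
    rw [dg, dif_pos h, h1]

open Classical in
/-- the entries of the first matrix, without the factor `dg`, times `x a ^ 2` -/
private def ent {a : Fin (N + 1)} {n : ℕ} {I : Finset (Fin (N + 1))} (f : LFrm P a n I) (B : Finset (Fin (N + 1))) (l c : Fin n) :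
    MvPolynomial (XV N n) ℂ :=
  if h : ∃ i, f.ι i = c then X (Sum.inr (l, (h.choose : Fin (N + 1)))) * X (Sum.inl a) - actP B l a
  else ∑ j, C (f.u c j) * (actP B l j * X (Sum.inl a) - X (Sum.inl j) * actP B l a)

private theorem eval_ent {a : Fin (N + 1)} {n : ℕ} {I B : Finset (Fin (N + 1))} (hI : I ⊆ B) (f : LFrm P a n I) {x : Fin (N + 1) → ℂ} (hxa : x a ≠ 0)
    (ξ : Fin n → Fin (N + 1) → ℂ) (l c : Fin n) :
    x a ^ 2 * ∑ j, f.u c j * va a x (act B x (ξ l)) j = dg f x c * eval (xv x ξ) (ent f B l c) := by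
  by_cases h : ∃ i, f.ι i = c
  · rw [dg, ent, dif_pos h, dif_pos h]
    have h1 : f.u c = Pi.single (h.choose : Fin (N + 1)) 1 := by
      have := f.hu h.choose
      rwa [h.choose_spec] at this
    have hB : (h.choose : Fin (N + 1)) ∈ B := hI h.choose.2
    generalize (h.choose : Fin (N + 1)) = i at h1 hB
    rw [h1, Finset.sum_eq_single i]
    · rw [Pi.single_eq_same, one_mul, map_sub, map_mul, eval_actP, eval_X, eval_X]
      show x a ^ 2 * va a x (act B x (ξ l)) i = x i * (ξ l i * x a - act B x (ξ l) a)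
      have h2 : act B x (ξ l) i = x i * ξ l i := by
        unfold act
        rw [if_pos hB]
      rw [va, h2]
      field_simp
    · intro j _ hj
      rw [Pi.single_eq_of_ne hj, zero_mul]
    · intro h
      exact absurd (Finset.mem_univ i) h
  · rw [dg, ent, dif_neg h, dif_neg h, one_mul, map_sum, Finset.mul_sum]
    refine Finset.sum_congr rfl fun j _ => ?_
    rw [map_mul, map_sub, map_mul, map_mul, eval_actP, eval_actP, eval_C, eval_X, eval_X]
    show x a ^ 2 * (f.u c j * va a x (act B x (ξ l)) j) = f.u c j * (act B x (ξ l) j * x a - x j * act B x (ξ l) a)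
    rw [va]
    field_simp

theorem LFrm.exists_det (hz : ∃ z : Fin (k + 1) → FunField P, IsTranscendenceBasis ℂ z) {a : Fin (N + 1)} {B I : Finset (Fin (N + 1))} (hI : I ⊆ B)
    (f : LFrm P a (k + 1) I) (hP : Homog P) (d : Dat (ya P a) (k + 1)) :
    ∃ (T : MvPolynomial (XV N (k + 1)) ℂ) (e : ℕ), ∀ x ∈ cone P, x a ≠ 0 → Module.finrank ℂ (conTan P x) ≤ k + 2 → eval (wa a x) f.g ≠ 0 →
      ∀ ξ : Fin (k + 1) → Fin (N + 1) → ℂ, LT P B x ξ →
        x a ^ e * (eval (wa a x) f.g ^ (k + 1) * (Matrix.of fun l j => d.tau (va a x (act B x (ξ l))) j).det) = (∏ i ∈ I, x i) * eval (xv x ξ) T := by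
  -- the second matrix
  obtain ⟨S, hS⟩ : ∃ S : Matrix (Fin (k + 1)) (Fin (k + 1)) (MvPolynomial (Fin (N + 1)) ℂ), S = Matrix.of fun c j => ∑ i, C (d.L j i) * f.E c i := ⟨_, rfl⟩
  refine ⟨rename Sum.inl (Pool.Agent.H68.KR.hmz a S.det.totalDegree S.det) * (Matrix.of fun l c => ent f B l c).det, 2 * (k + 1) + S.det.totalDegree, ?_⟩
  intro x hx hxa hfin hg ξ hξ
  have hw := Pool.Agent.GG.Kd.isPt_wa hz hx hxa
  have hs := Pool.Agent.GG.Kd.finrank_tan hP hz hx hxa hfin
  -- the product of the matrices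
  have h1 : eval (wa a x) f.g • (Matrix.of fun l j => d.tau (va a x (act B x (ξ l))) j) =
      (Matrix.of fun l c => ∑ j, f.u c j * va a x (act B x (ξ l)) j) * (eval (wa a x)).mapMatrix S := by
    ext l j
    rw [Matrix.smul_apply, Matrix.mul_apply, smul_eq_mul, Matrix.of_apply]
    have h2 := fun i => f.frm.span hw hs hg (Pool.Agent.GG.Kd.va_mem hz hx hxa (hξ l)) i
    show eval (wa a x) f.g * (∑ i, d.L j i * va a x (act B x (ξ l)) i) = _
    rw [Finset.mul_sum]
    have h3 : ∀ i ∈ Finset.univ, eval (wa a x) f.g * (d.L j i * va a x (act B x (ξ l)) i) =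
        ∑ c, (∑ j, f.u c j * va a x (act B x (ξ l)) j) * (d.L j i * eval (wa a x) (f.E c i)) := by
      intro i _
      rw [← mul_assoc, mul_comm (eval (wa a x) f.g), mul_assoc, h2 i, Finset.mul_sum]
      refine Finset.sum_congr rfl fun c _ => ?_
      ring
    rw [Finset.sum_congr rfl h3, Finset.sum_comm]
    refine Finset.sum_congr rfl fun c _ => ?_
    rw [Matrix.of_apply, RingHom.mapMatrix_apply, Matrix.map_apply, hS, Matrix.of_apply, map_sum, Finset.mul_sum]
    refine Finset.sum_congr rfl fun i _ => ?_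
    rw [map_mul, eval_C]
  have h4 := congrArg Matrix.det h1
  rw [Matrix.det_smul, Fintype.card_fin, Matrix.det_mul, ← RingHom.map_det] at h4
  -- the first matrix
  have h5 : x a ^ (2 * (k + 1)) * (Matrix.of fun l c => ∑ j, f.u c j * va a x (act B x (ξ l)) j).det =
      (∏ i ∈ I, x i) * eval (xv x ξ) (Matrix.of fun l c => ent f B l c).det := by
    have h6 : x a ^ 2 • (Matrix.of fun l c => ∑ j, f.u c j * va a x (act B x (ξ l)) j) =
        Matrix.of fun l c => dg f x c * ((eval (xv x ξ)).mapMatrix (Matrix.of fun l c => ent f B l c)) l c := by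
      ext l c
      rw [Matrix.smul_apply, smul_eq_mul, Matrix.of_apply, Matrix.of_apply, RingHom.mapMatrix_apply, Matrix.map_apply, Matrix.of_apply]
      exact eval_ent hI f hxa ξ l c
    have h7 := congrArg Matrix.det h6
    rw [Matrix.det_smul, Fintype.card_fin, Matrix.det_mul_row, prod_dg, ← RingHom.map_det, ← pow_mul] at h7
    exact h7
  have hren : eval (xv x ξ) (rename Sum.inl (Pool.Agent.H68.KR.hmz a S.det.totalDegree S.det)) =
      eval x (Pool.Agent.H68.KR.hmz a S.det.totalDegree S.det) := by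
    rw [eval_rename]
    rfl
  rw [h4, map_mul, hren, Pool.Agent.GG.Kd.eval_hmz' _ hxa, pow_add]
  calc x a ^ (2 * (k + 1)) * x a ^ S.det.totalDegree * ((Matrix.of fun l c => ∑ j, f.u c j * va a x (act B x (ξ l)) j).det * eval (wa a x) S.det)
      = (x a ^ (2 * (k + 1)) * (Matrix.of fun l c => ∑ j, f.u c j * va a x (act B x (ξ l)) j).det) * (x a ^ S.det.totalDegree * eval (wa a x) S.det) := by
        ring
    _ = _ := by
        rw [h5]
        ring

end Pool.Agent.GL
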