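import Pool.Agent.GL.KG.Defs

/-!
# GL KG Fr: polynomial vector fields dual to given linear forms

`d : Dat y n` with `J (w) ≠ 0` (`exists_dat`), `∂_j` the derivations dual to `dt_j`; `J ∂_j (y i) = aeval y (a i j)` (`Dat.der_mem`), the fields
`V_j = (a i j)_i` are tangent at all points; `U c j = u c (V_j)`, `det U (w) ≠ 0`, `E c = ∑ j, V_j adj (U) j c`, `g = det U`.
-/

set_option autoImplicit false

open MvPolynomial
open Pool.Agent.GG.Kd (IsPt tan lf aeval_lf der_aeval exists_dat)
open Pool.Agent.H23 (dualDer dualDer_coord exists_basis_kaehler)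

noncomputable section

namespace Pool.Agent.GL

variable {K : Type} [Field K] [Algebra ℂ K] {r n : ℕ}

theorem exists_frm (y : Fin r → K) (hK : ∃ z : Fin n → K, IsTranscendenceBasis ℂ z) (hgen : IntermediateField.adjoin ℂ (Set.range y) = ⊤)
    {w : Fin r → ℂ} (hw : IsPt y w) (hs : Module.finrank ℂ (tan y w) ≤ n) (u : Fin n → Fin r → ℂ)
    (hu : ∀ v ∈ tan y w, (∀ c, ∑ i, u c i * v i = 0) → v = 0) :
    ∃ (g : MvPolynomial (Fin r) ℂ) (E : Fin n → Fin r → MvPolynomial (Fin r) ℂ), eval w g ≠ 0 ∧ Frm y u g E := by
  classical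
  obtain ⟨d, hJ⟩ := exists_dat y hK hgen hs
  obtain ⟨b, hb⟩ := exists_basis_kaehler d.basis
  have hdual : ∀ i j, dualDer b i (aeval y (lf (d.L j))) = if i = j then 1 else 0 := fun i j => dualDer_coord b hb i j
  have hA : ∀ (j : Fin n) (i : Fin r), ∃ A : MvPolynomial (Fin r) ℂ, aeval y A = aeval y d.J * dualDer b j (y i) := by
    intro j i
    have h1 := d.der_mem (dualDer b j) (fun l => by
      show dualDer b j (aeval y (lf (d.L l))) ∈ _
      rw [hdual]
      split_ifs
      · exact one_mem _
      · exact zero_mem _) (Algebra.subset_adjoin ⟨i, rfl⟩ : y i ∈ Algebra.adjoin ℂ (Set.range y))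
    rw [Algebra.adjoin_range_eq_range_aeval] at h1
    obtain ⟨A, hA⟩ := h1
    exact ⟨A, hA⟩
  choose A hA using hA
  have htan : ∀ w', IsPt y w' → ∀ j, (fun i => eval w' (A j i)) ∈ tan y w' := by
    intro w' hw' j G hG
    have h1 : aeval y (∑ i, pderiv i G * A j i) = 0 := by
      rw [map_sum]
      have h2 : ∀ i, aeval y (pderiv i G * A j i) = aeval y d.J * (aeval y (pderiv i G) * dualDer b j (y i)) := by
        intro i
        rw [map_mul, hA]
        ring
      rw [Finset.sum_congr rfl fun i _ => h2 i, ← Finset.mul_sum, ← der_aeval, hG, map_zero, mul_zero]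
    have h3 := hw' _ h1
    rw [map_sum] at h3
    rw [← h3]
    exact Finset.sum_congr rfl fun i _ => by rw [map_mul]
  set U : Matrix (Fin n) (Fin n) (MvPolynomial (Fin r) ℂ) := fun c j => ∑ i, C (u c i) * A j i with hU
  refine ⟨U.det, fun c i => ∑ j, A j i * U.adjugate j c, ?_, ?_, ?_⟩
  · intro h0
    have h1 : (Matrix.map U (eval w)).det = 0 := by
      rw [← h0, RingHom.map_det]
      rfl
    obtain ⟨lam, hlam, hlam0⟩ := Matrix.exists_mulVec_eq_zero_iff.2 h1
    have hv : (fun i => ∑ j, lam j * eval w (A j i)) = 0 := by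
      refine hu _ ?_ ?_
      · have h2 : (fun i => ∑ j, lam j * eval w (A j i)) = ∑ j, lam j • fun i => eval w (A j i) := by
          funext i
          rw [Finset.sum_apply]
          rfl
        rw [h2]
        exact Submodule.sum_mem _ fun j _ => Submodule.smul_mem _ _ (htan w hw j)
      · intro c
        have h2 : ∑ j, eval w (U c j) * lam j = 0 := congrFun hlam0 c
        have h3 : ∀ j, eval w (U c j) = ∑ i, u c i * eval w (A j i) := by
          intro j
          show eval w (∑ i, C (u c i) * A j i) = _
          rw [map_sum]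
          exact Finset.sum_congr rfl fun i _ => by rw [map_mul, eval_C]
        have h4 : ∑ j, eval w (U c j) * lam j = ∑ j, (∑ i, u c i * eval w (A j i)) * lam j := Finset.sum_congr rfl fun j _ => by rw [h3 j]
        rw [← h2, h4]
        simp only [Finset.mul_sum, Finset.sum_mul]
        rw [Finset.sum_comm]
        exact Finset.sum_congr rfl fun j _ => Finset.sum_congr rfl fun i _ => by ring
    apply hlam
    funext j₀
    have h2 : ∀ j, ∑ i, d.L j₀ i * eval w (A j i) = if j = j₀ then eval w d.J else 0 := by
      intro j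
      have h3 : aeval y ((∑ i, C (d.L j₀ i) * A j i) - (if j = j₀ then d.J else 0)) = 0 := by
        rw [map_sub, map_sum]
        have h4 : ∀ i, aeval y (C (d.L j₀ i) * A j i) = aeval y d.J * (aeval y (pderiv i (lf (d.L j₀))) * dualDer b j (y i)) := by
          intro i
          rw [map_mul, hA, Pool.Agent.GG.Kd.pderiv_lf]
          ring
        rw [Finset.sum_congr rfl fun i _ => h4 i, ← Finset.mul_sum, ← der_aeval, hdual]
        split_ifs
        · rw [mul_one, sub_self]
        · rw [mul_zero, map_zero, sub_zero]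
      have h5 := hw _ h3
      rw [map_sub, map_sum, sub_eq_zero] at h5
      simp only [map_mul, eval_C] at h5
      rw [h5]
      split_ifs
      · rfl
      · rw [map_zero]
    have h6 : ∑ i, d.L j₀ i * (∑ j, lam j * eval w (A j i)) = 0 := by
      refine Finset.sum_eq_zero fun i _ => ?_
      rw [show (∑ j, lam j * eval w (A j i)) = 0 from congrFun hv i, mul_zero]
    have h7 : ∑ i, d.L j₀ i * (∑ j, lam j * eval w (A j i)) = ∑ j, lam j * ∑ i, d.L j₀ i * eval w (A j i) := by
      simp only [Finset.mul_sum]
      rw [Finset.sum_comm]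
      exact Finset.sum_congr rfl fun j _ => Finset.sum_congr rfl fun i _ => by ring
    rw [h7, Finset.sum_congr rfl fun j _ => by rw [h2 j], Finset.sum_eq_single j₀ (fun j _ hj => by rw [if_neg hj, mul_zero])
      (fun h => absurd (Finset.mem_univ _) h), if_pos rfl] at h6
    exact (mul_eq_zero.1 h6).resolve_right hJ
  · intro w' hw' c
    have h2 : (fun i => eval w' (∑ j, A j i * U.adjugate j c)) = ∑ j, eval w' (U.adjugate j c) • fun i => eval w' (A j i) := by
      funext i
      rw [Finset.sum_apply, map_sum]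
      exact Finset.sum_congr rfl fun j _ => by rw [map_mul, Pi.smul_apply, smul_eq_mul, mul_comm]
    rw [h2]
    exact Submodule.sum_mem _ fun j _ => Submodule.smul_mem _ _ (htan w' hw' j)
  · intro w' _ c c'
    have h3 : ∑ i, C (u c' i) * (∑ j, A j i * U.adjugate j c) = if c' = c then U.det else 0 := by
      have h4 := congrFun (congrFun (Matrix.mul_adjugate U) c') c
      rw [Matrix.mul_apply, Matrix.smul_apply, Matrix.one_apply, smul_eq_mul, mul_ite, mul_one, mul_zero] at h4
      rw [← h4]
      simp only [hU, Finset.mul_sum, Finset.sum_mul]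
      rw [Finset.sum_comm]
      exact Finset.sum_congr rfl fun j _ => Finset.sum_congr rfl fun i _ => by ring
    have h5 := congrArg (eval w') h3
    rw [map_sum] at h5
    simp only [map_mul, eval_C] at h5
    rw [h5]
    split_ifs
    · rfl
    · rw [map_zero]

/-- the fields span the tangent spaces -/
theorem Frm.span {y : Fin r → K} {u : Fin n → Fin r → ℂ} {g : MvPolynomial (Fin r) ℂ} {E : Fin n → Fin r → MvPolynomial (Fin r) ℂ}
    (h : Frm y u g E) {w : Fin r → ℂ} (hw : IsPt y w) (hs : Module.finrank ℂ (tan y w) ≤ n) (hg : eval w g ≠ 0) {v : Fin r → ℂ} (hv : v ∈ tan y w)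
    (i : Fin r) : eval w g * v i = ∑ c, (∑ j, u c j * v j) * eval w (E c i) := by
  classical
  let U : tan y w →ₗ[ℂ] (Fin n → ℂ) :=
    { toFun := fun v c => ∑ j, u c j * (v : Fin r → ℂ) j
      map_add' := by
        intro a b
        funext c
        simp only [Submodule.coe_add, Pi.add_apply, mul_add, Finset.sum_add_distrib]
      map_smul' := by
        intro s a
        funext c
        simp only [Submodule.coe_smul, Pi.smul_apply, smul_eq_mul, RingHom.id_apply, Finset.mul_sum]
        exact Finset.sum_congr rfl fun j _ => by ring }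
  have hmem : ∀ b : Fin n → ℂ, (fun i => ∑ c, b c * eval w (E c i)) ∈ tan y w := by
    intro b
    have h2 : (fun i => ∑ c, b c * eval w (E c i)) = ∑ c, b c • fun i => eval w (E c i) := by
      funext i
      rw [Finset.sum_apply]
      rfl
    rw [h2]
    exact Submodule.sum_mem _ fun c _ => Submodule.smul_mem _ _ (h.mem w hw c)
  have hU : ∀ b : Fin n → ℂ, ∀ c', ∑ j, u c' j * (∑ c, b c * eval w (E c j)) = b c' * eval w g := by
    intro b c'
    have h3 : ∑ j, u c' j * (∑ c, b c * eval w (E c j)) = ∑ c, b c * ∑ j, u c' j * eval w (E c j) := by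
      simp only [Finset.mul_sum]
      rw [Finset.sum_comm]
      exact Finset.sum_congr rfl fun j _ => Finset.sum_congr rfl fun i _ => by ring
    rw [h3, Finset.sum_congr rfl fun c _ => by rw [h.dual w hw c c'], Finset.sum_eq_single c' (fun c _ hc => by rw [if_neg (Ne.symm hc), mul_zero])
      (fun h => absurd (Finset.mem_univ _) h), if_pos rfl]
  have hsurj : Function.Surjective U := by
    intro b
    refine ⟨⟨_, hmem fun c => b c * (eval w g)⁻¹⟩, ?_⟩
    funext c'
    show ∑ j, u c' j * (∑ c, (b c * (eval w g)⁻¹) * eval w (E c j)) = b c'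
    rw [hU, mul_assoc, inv_mul_cancel₀ hg, mul_one]
  have hfin : Module.finrank ℂ (tan y w) = Module.finrank ℂ (Fin n → ℂ) := by
    refine le_antisymm (by rwa [Module.finrank_fin_fun]) (LinearMap.finrank_le_finrank_of_surjective hsurj)
  have hinj : Function.Injective U := (LinearMap.injective_iff_surjective_of_finrank_eq_finrank hfin).2 hsurj
  have h4 : (eval w g) • (⟨v, hv⟩ : tan y w) = ⟨_, hmem fun c => ∑ j, u c j * v j⟩ := by
    apply hinj
    rw [map_smul]
    funext c'
    show eval w g * ∑ j, u c' j * v j = ∑ j, u c' j * (∑ c, (∑ l, u c l * v l) * eval w (E c j))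
    rw [hU, mul_comm]
  exact congrFun (congrArg Subtype.val h4) i

end Pool.Agent.GL
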