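import Pool.Agent.GL.KG.Defs

/-!
# GL KG Lin: independent coordinates are completed to a coordinate system (linear algebra)

`T` of dimension `≤ n`, the coordinates `i ∈ I` are independent on `T` (so `|I| ≤ dim T ≤ n`): there are `n` linear forms, which contain these coordinates,
without a common zero on `T` except `0`.
-/

set_option autoImplicit false

noncomputable section

namespace Pool.Agent.GL

theorem exists_forms {r n : ℕ} (T : Submodule ℂ (Fin r → ℂ)) (hT : Module.finrank ℂ T ≤ n) (I : Finset (Fin r))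
    (hI : ∀ c : Fin r → ℂ, (∀ i, c i ≠ 0 → i ∈ I) → (∀ v ∈ T, ∑ i, c i * v i = 0) → c = 0) :
    ∃ (u : Fin n → Fin r → ℂ) (ι : {i // i ∈ I} → Fin n), Function.Injective ι ∧ (∀ i : {i // i ∈ I}, u (ι i) = Pi.single (i : Fin r) 1) ∧
      ∀ v ∈ T, (∀ c, ∑ i, u c i * v i = 0) → v = 0 := by
  classical
  -- the coordinates as linear forms on `T`
  let cd : Fin r → Module.Dual ℂ T := fun i => (LinearMap.proj i : (Fin r → ℂ) →ₗ[ℂ] ℂ).comp T.subtype
  have hcd : ∀ (i : Fin r) (v : T), cd i v = (v : Fin r → ℂ) i := fun i v => rfl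
  have hli : LinearIndepOn ℂ cd (I : Set (Fin r)) := by
    rw [linearIndepOn_finset_iff]
    intro f hf i hi
    have h1 := hI (fun j => if j ∈ I then f j else 0) (fun j hj => by
      by_contra hjI
      simp [hjI] at hj) (fun v hv => by
      have h2 : (∑ j ∈ I, f j • cd j) ⟨v, hv⟩ = 0 := by rw [hf]; rfl
      rw [LinearMap.sum_apply] at h2
      simp only [LinearMap.smul_apply, hcd, smul_eq_mul] at h2
      have h4 : ∑ i, (if i ∈ I then f i else 0) * v i = ∑ j ∈ I, f j * v j := by
        simp only [ite_mul, zero_mul]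
        rw [Finset.sum_ite_mem, Finset.univ_inter]
      rw [h4, h2])
    have h3 := congrFun h1 i
    simpa [hi] using h3
  obtain ⟨b, -, hIb, hspan, hb⟩ := exists_linearIndepOn_extension hli (Set.subset_univ _)
  have hcard : Fintype.card b ≤ n := by
    have h1 : Fintype.card b ≤ Module.finrank ℂ (Module.Dual ℂ T) := LinearIndependent.fintype_card_le_finrank (b := fun x : b => cd x) hb
    rw [Subspace.dual_finrank_eq] at h1
    exact h1.trans hT
  obtain ⟨e⟩ : Nonempty (b ↪ Fin n) := Function.Embedding.nonempty_of_card_le (by simpa using hcard)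
  let u : Fin n → Fin r → ℂ := fun c => if h : ∃ j : b, e j = c then Pi.single (h.choose : Fin r) 1 else 0
  have hu : ∀ j : b, u (e j) = Pi.single (j : Fin r) 1 := by
    intro j
    have h : ∃ j' : b, e j' = e j := ⟨j, rfl⟩
    have h1 : h.choose = j := e.injective h.choose_spec
    show (if h : ∃ j' : b, e j' = e j then Pi.single (h.choose : Fin r) 1 else 0 : Fin r → ℂ) = _
    rw [dif_pos h, h1]
  refine ⟨u, fun i => e ⟨i, hIb i.2⟩, ?_, fun i => hu _, ?_⟩
  · intro i j hij
    have h1 := e.injective hij
    exact Subtype.ext (congrArg (fun x : b => (x : Fin r)) h1)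
  · intro v hv h0
    have h1 : ∀ j : b, v j = 0 := by
      intro j
      have h2 := h0 (e j)
      rw [hu j] at h2
      rw [Finset.sum_eq_single (j : Fin r)] at h2
      · simpa using h2
      · intro i _ hij
        rw [Pi.single_eq_of_ne hij, zero_mul]
      · intro h3
        exact absurd (Finset.mem_univ _) h3
    have h2 : ∀ φ ∈ Submodule.span ℂ (cd '' b), φ ⟨v, hv⟩ = 0 := by
      intro φ hφ
      refine Submodule.span_induction ?_ ?_ ?_ ?_ hφ
      · rintro _ ⟨j, hj, rfl⟩
        exact h1 ⟨j, hj⟩
      · rfl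
      · intro x y _ _ hx hy
        rw [LinearMap.add_apply, hx, hy, add_zero]
      · intro a x _ hx
        rw [LinearMap.smul_apply, hx, smul_zero]
    funext i
    exact h2 (cd i) (hspan ⟨i, Set.mem_univ _, rfl⟩)

end Pool.Agent.GL
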