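import Pool.Agent.GL.KG.Fr
import Pool.Agent.GL.KG.Lin

/-!
# GL KG Lf: the vector fields adapted to a point of the boundary

`Snc` at `x` gives the hypothesis of `exists_forms` for `T = tan (ya P a) (wa a x)` and `I = {i ∈ B | x i = 0}` (`va_mem`: the vectors `va a x v`,
`v ∈ conTan P x`, are in `T`, and `va a x v i = v i / x a` for `i ∈ I`).
-/

set_option autoImplicit false

open MvPolynomial
open Pool.Agent.H17LG.Variety (FunField)
open Pool.Agent.H62.FC (Homog)
open Pool.Agent.H13.SM (conTan cone)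
open Pool.Agent.GG.Kd (IsPt tan ya wa va isPt_wa va_mem finrank_tan adjoin_ya)

noncomputable section

namespace Pool.Agent.GL

variable {N : ℕ} {P : Ideal (MvPolynomial (Fin (N + 1)) ℂ)} [P.IsPrime] {k : ℕ}

open Classical in
theorem exists_LFrm (hP : Homog P) (hz : ∃ z : Fin (k + 1) → FunField P, IsTranscendenceBasis ℂ z) {B : Finset (Fin (N + 1))} {x : Fin (N + 1) → ℂ}
    (hx : x ∈ cone P) (hsm : Module.finrank ℂ (conTan P x) ≤ k + 2) (hsnc : Snc P B x) {a : Fin (N + 1)} (ha : x a ≠ 0) :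
    ∃ f : LFrm P a (k + 1) (B.filter fun i => x i = 0), eval (wa a x) f.g ≠ 0 := by
  have haP : X a ∉ P := fun h => ha (by have := hx.2 _ h; rwa [eval_X] at this)
  have hw : IsPt (ya P a) (wa a x) := isPt_wa hz hx ha
  have hT : Module.finrank ℂ (tan (ya P a) (wa a x)) ≤ k + 1 := finrank_tan hP hz hx ha hsm
  obtain ⟨u, ι, hι, hu, hsep⟩ := exists_forms (tan (ya P a) (wa a x)) hT (B.filter fun i => x i = 0) (by
    intro c hc hv
    refine hsnc c (fun i hi => Finset.mem_filter.1 (hc i hi)) fun v hvc => ?_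
    have h1 := hv _ (va_mem hz hx ha hvc)
    have h2 : ∀ i, c i * v i = x a * (c i * va a x v i) := by
      intro i
      by_cases hi : c i = 0
      · rw [hi, zero_mul, zero_mul, mul_zero]
      · have hxi : x i = 0 := (Finset.mem_filter.1 (hc i hi)).2
        rw [va, hxi, zero_mul, sub_zero]
        field_simp
    rw [Finset.sum_congr rfl fun i _ => h2 i, ← Finset.mul_sum, h1, mul_zero])
  obtain ⟨g, E, hg, hfr⟩ := exists_frm (ya P a) hz (adjoin_ya hz haP) hw hT u hsep
  exact ⟨⟨u, ι, hι, hu, g, E, hfr⟩, hg⟩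

end Pool.Agent.GL
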